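import Pool.Agent.U954.PG.Fin

/-!
Self-avoiding polygons on the square lattice with a fixed perimeter `2N`: regularity to all orders,
in the arc length, of the laws of the arcs, of the moments of the chords, and of the arc length
between the highest sites for two rankings of the sites (for example the arc length between the
highest and the lowest site).
-/

set_option autoImplicit false

open scoped Classical

namespace Pool.Agent.Results.MP_376faf_co.ArcLengths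

/-- `f` is a self-avoiding polygon with perimeter `m` on `ℤ²` with a starting point, put at the
origin, and an orientation. -/
def IsLoop (m : ℕ) (f : ZMod m → ℤ × ℤ) : Prop :=
  f 0 = (0, 0) ∧ Function.Injective f ∧
    ∀ i : ZMod m, |(f (i + 1)).1 - (f i).1| + |(f (i + 1)).2 - (f i).2| = 1

/-- The polygon is at its highest site at time `t`, for the ranking `φ` of the sites. -/
def IsTop {α : Type} [LinearOrder α] {m : ℕ} (φ : ℤ × ℤ → α) (f : ZMod m → ℤ × ℤ) (t : ℕ) : Prop :=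
  ∀ u : ZMod m, φ (f u) ≤ φ (f (t : ZMod m))

/-- The polygons of perimeter `2N` with a root (and an orientation): for `ρ = none` the root is an
arbitrary vertex, for `ρ = some φ` it is the highest site for the ranking `φ`. -/
def Loops {α : Type} [LinearOrder α] (ρ : Option (ℤ × ℤ → α)) (N : ℕ) :
    Set (ZMod (2 * N) → ℤ × ℤ) :=
  {f | IsLoop (2 * N) f ∧ ∀ φ, ρ = some φ → IsTop φ f 0}

/-- If `ρ = some φ`, then `φ` is a ranking (it is injective) which is compatible with translations. -/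
def Good {α : Type} [LinearOrder α] (ρ : Option (ℤ × ℤ → α)) : Prop :=
  ∀ φ, ρ = some φ → Function.Injective φ ∧ ∀ x y z, φ x ≤ φ y → φ (x + z) ≤ φ (y + z)

/-- The mean of `F` under the uniform measure on `Loops ρ N`. -/
noncomputable def mean {α : Type} [LinearOrder α] (ρ : Option (ℤ × ℤ → α)) (N : ℕ)
    (F : (ZMod (2 * N) → ℤ × ℤ) → ℝ) : ℝ :=
  (∑ᶠ f ∈ Loops ρ N, F f) / ((Loops ρ N).ncard : ℝ)

/-- The probability of the event `E`. -/
noncomputable def prob {α : Type} [LinearOrder α] (ρ : Option (ℤ × ℤ → α)) (N : ℕ)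
    (E : (ZMod (2 * N) → ℤ × ℤ) → Prop) : ℝ := mean ρ N (fun f => if E f then 1 else 0)

/-- The arc `(f(i), f(i+1), …, f(i+l))`. -/
def arc {m : ℕ} (i l : ℕ) (f : ZMod m → ℤ × ℤ) : Fin (l + 1) → ℤ × ℤ :=
  fun j => f ((i + j : ℕ) : ZMod m)

/-- The arcs `(f(0), …, f(a))`, `(f(s), …, f(s+m))` and `(f(2N-1-b), …, f(2N-1))`. -/
def parts {N : ℕ} (a m b s : ℕ) (f : ZMod (2 * N) → ℤ × ℤ) :
    (Fin (a + 1) → ℤ × ℤ) × (Fin (m + 1) → ℤ × ℤ) × (Fin (b + 1) → ℤ × ℤ) :=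
  (arc 0 a f, arc s m f, arc (2 * N - 1 - b) b f)

/-- The time `t` is in one of the three time intervals of `parts`. -/
def InParts (N a m b s t : ℕ) : Prop :=
  t ≤ a ∨ (s ≤ t ∧ t ≤ s + m) ∨ (2 * N - 1 - b ≤ t ∧ t ≤ 2 * N - 1)

/-- The highest sites, for the `k` rankings `φ i`, are all on the three arcs of `parts`. -/
def TopsIn {α : Type} [LinearOrder α] {k N : ℕ} (φ : Fin k → ℤ × ℤ → α) (a m b s : ℕ)
    (f : ZMod (2 * N) → ℤ × ℤ) : Prop :=
  ∀ i, ∃ t, InParts N a m b s t ∧ IsTop (φ i) f t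

/-- The mean of `Φ (parts a m b s f)` over the event `TopsIn φ a m b s`. -/
noncomputable def topMean {α : Type} [LinearOrder α] {k : ℕ} (ρ : Option (ℤ × ℤ → α))
    (φ : Fin k → ℤ × ℤ → α) (N a m b s : ℕ)
    (Φ : (Fin (a + 1) → ℤ × ℤ) × (Fin (m + 1) → ℤ × ℤ) × (Fin (b + 1) → ℤ × ℤ) → ℝ) : ℝ :=
  mean ρ N (fun f => if TopsIn φ a m b s f then Φ (parts a m b s f) else 0)

/-- The Euclidean norm of a point of `ℤ²`. -/
noncomputable def norm2 (x : ℤ × ℤ) : ℝ := Real.sqrt ((x.1 : ℝ) ^ 2 + (x.2 : ℝ) ^ 2)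

/-- The mean of `|f(t) - f(s)|^θ`. -/
noncomputable def chord {α : Type} [LinearOrder α] (ρ : Option (ℤ × ℤ → α)) (θ : ℝ)
    (N s t : ℕ) : ℝ :=
  mean ρ N (fun f => norm2 (f (t : ZMod (2 * N)) - f (s : ZMod (2 * N))) ^ θ)

/-- The mean of `(1 + |y(f(t)) - y(f(s))|)^θ`, for the second coordinate `y`. -/
noncomputable def drop {α : Type} [LinearOrder α] (ρ : Option (ℤ × ℤ → α)) (θ : ℝ)
    (N s t : ℕ) : ℝ :=
  mean ρ N (fun f =>
    (1 + |(((f (t : ZMod (2 * N))).2 - (f (s : ZMod (2 * N))).2 : ℤ) : ℝ)|) ^ θ)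

/-- The `r`-th difference `∑ (-1)^i C(r, i) f(i)` of a sequence. -/
noncomputable def diff (r : ℕ) (f : ℕ → ℝ) : ℝ :=
  ∑ i ∈ Finset.range (r + 1), (-1 : ℝ) ^ i * (r.choose i : ℝ) * f i

section aux

open Pool.Agent.H976R2

/-- powers -/
theorem pow_bd (θ : ℝ) {N : ℕ} (hN : 2 ≤ N) {y : ℝ} (h1 : 1 ≤ y) (h2 : y ≤ (N : ℝ) ^ 4) :
    y ^ θ ≤ Real.exp (4 * |θ| * Real.log N) ∧ Real.exp (-(4 * |θ| * Real.log N)) ≤ y ^ θ := by
  have hn' : (2 : ℝ) ≤ N := by exact_mod_cast hN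
  have hM : ((N : ℝ) ^ 4) ^ |θ| = Real.exp (4 * |θ| * Real.log N) := by
    rw [Real.rpow_def_of_pos (by positivity), Real.log_pow]
    congr 1
    push_cast
    ring
  have e1 : y ^ |θ| ≤ Real.exp (4 * |θ| * Real.log N) := by
    rw [← hM]
    exact Real.rpow_le_rpow (by linarith) h2 (abs_nonneg θ)
  constructor
  · exact (Real.rpow_le_rpow_of_exponent_le h1 (le_abs_self θ)).trans e1
  · have e2 : y ^ (-|θ|) ≤ y ^ θ := Real.rpow_le_rpow_of_exponent_le h1 (neg_abs_le θ)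
    refine le_trans ?_ e2
    rw [Real.rpow_neg (by linarith), Real.exp_neg]
    exact inv_anti₀ (Real.rpow_pos_of_pos (by linarith) _) e1

/-- the coordinates of the difference of two positions -/
theorem co_bd {N : ℕ} (hN : 2 ≤ N) {w : List Dir} (hw : w ∈ SW (2 * N - 1)) {s t : ℕ}
    (hs : s ≤ 2 * N - 1) (ht : t ≤ 2 * N - 1) :
    |(Lip.PP w t - Lip.PP w s).1| ≤ 4 * N ∧ |(Lip.PP w t - Lip.PP w s).2| ≤ 4 * N := by
  obtain ⟨hl, hsaw⟩ := mem_SW.mp hw
  have a1 := Pool.Agent.N457.EX.PP_le w t (by omega)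
  have a2 := Pool.Agent.N457.EX.PP_le w s (by omega)
  have e1 : (Lip.PP w t - Lip.PP w s).1 = (Lip.PP w t).1 - (Lip.PP w s).1 := rfl
  have e2 : (Lip.PP w t - Lip.PP w s).2 = (Lip.PP w t).2 - (Lip.PP w s).2 := rfl
  rw [e1, e2, abs_le, abs_le]
  obtain ⟨b1, b2⟩ := a1
  obtain ⟨b3, b4⟩ := a2
  rw [abs_le] at b1 b2 b3 b4
  omega

/-- the norm of the difference of two positions of a self-avoiding walk -/
theorem norm_bd {N : ℕ} (hN : 2 ≤ N) {w : List Dir} (hw : w ∈ SW (2 * N - 1)) {s t : ℕ}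
    (hs : s ≤ 2 * N - 1) (ht : t ≤ 2 * N - 1) (hst : s ≠ t) :
    1 ≤ norm2 (Lip.PP w t - Lip.PP w s) ∧ norm2 (Lip.PP w t - Lip.PP w s) ≤ (N : ℝ) ^ 4 := by
  obtain ⟨hl, hsaw⟩ := mem_SW.mp hw
  obtain ⟨c1, c2⟩ := co_bd hN hw hs ht
  obtain ⟨x, hx⟩ : ∃ x, x = (Lip.PP w t - Lip.PP w s).1 := ⟨_, rfl⟩
  obtain ⟨y, hy⟩ : ∃ y, y = (Lip.PP w t - Lip.PP w s).2 := ⟨_, rfl⟩
  have hne : x ≠ 0 ∨ y ≠ 0 := by
    by_contra hcon
    push Not at hcon
    have h1 : Lip.PP w t - Lip.PP w s = 0 := by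
      refine Prod.ext ?_ ?_
      · rw [← hx]; exact hcon.1
      · rw [← hy]; exact hcon.2
    exact hst (Lip.PP_inj hsaw (j := t) (k := s) (by omega) (by omega) (sub_eq_zero.mp h1)).symm
  have hN' : (2 : ℝ) ≤ N := by exact_mod_cast hN
  rw [← hx] at c1
  rw [← hy] at c2
  have c1' : |(x : ℝ)| ≤ 4 * N := by exact_mod_cast c1
  have c2' : |(y : ℝ)| ≤ 4 * N := by exact_mod_cast c2
  have e : norm2 (Lip.PP w t - Lip.PP w s) = Real.sqrt ((x : ℝ) ^ 2 + (y : ℝ) ^ 2) := by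
    unfold norm2
    rw [hx, hy]
  rw [e]
  constructor
  · rw [Real.one_le_sqrt]
    rcases hne with h | h
    · have h1 : (1 : ℝ) ≤ (x : ℝ) ^ 2 := by
        have : (1 : ℤ) ≤ x ^ 2 := by
          have := Int.one_le_abs h
          nlinarith [abs_nonneg x, sq_abs x]
        exact_mod_cast this
      nlinarith [sq_nonneg (y : ℝ)]
    · have h1 : (1 : ℝ) ≤ (y : ℝ) ^ 2 := by
        have : (1 : ℤ) ≤ y ^ 2 := by
          have := Int.one_le_abs h
          nlinarith [abs_nonneg y, sq_abs y]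
        exact_mod_cast this
      nlinarith [sq_nonneg (x : ℝ)]
  · rw [Real.sqrt_le_left (by positivity)]
    have h1 : (x : ℝ) ^ 2 ≤ (4 * N) ^ 2 := by
      rw [← sq_abs]
      exact pow_le_pow_left₀ (abs_nonneg _) c1' 2
    have h2 : (y : ℝ) ^ 2 ≤ (4 * N) ^ 2 := by
      rw [← sq_abs]
      exact pow_le_pow_left₀ (abs_nonneg _) c2' 2
    have h4 : (64 : ℝ) ≤ (N : ℝ) ^ 6 := by
      calc (64 : ℝ) = 2 ^ 6 := by norm_num
        _ ≤ (N : ℝ) ^ 6 := pow_le_pow_left₀ (by norm_num) hN' 6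
    have h5 : ((N : ℝ) ^ 4) ^ 2 = (N : ℝ) ^ 6 * (N : ℝ) ^ 2 := by ring
    rw [h5]
    nlinarith [sq_nonneg (N : ℝ)]

theorem drop_bd {N : ℕ} (hN : 2 ≤ N) {w : List Dir} (hw : w ∈ SW (2 * N - 1)) {s t : ℕ}
    (hs : s ≤ 2 * N - 1) (ht : t ≤ 2 * N - 1) :
    1 ≤ 1 + |(((Lip.PP w t).2 - (Lip.PP w s).2 : ℤ) : ℝ)| ∧
      1 + |(((Lip.PP w t).2 - (Lip.PP w s).2 : ℤ) : ℝ)| ≤ (N : ℝ) ^ 4 := by
  obtain ⟨-, c2⟩ := co_bd hN hw hs ht
  have hN' : (2 : ℝ) ≤ N := by exact_mod_cast hN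
  obtain ⟨y, hy⟩ : ∃ y, y = (Lip.PP w t).2 - (Lip.PP w s).2 := ⟨_, rfl⟩
  have e : (Lip.PP w t - Lip.PP w s).2 = y := by rw [hy]; rfl
  rw [e] at c2
  rw [← hy]
  have c2' : |(y : ℝ)| ≤ 4 * N := by exact_mod_cast c2
  refine ⟨by linarith [abs_nonneg (y : ℝ)], ?_⟩
  have h4 : (8 : ℝ) ≤ (N : ℝ) ^ 3 := by
    calc (8 : ℝ) = 2 ^ 3 := by norm_num
      _ ≤ (N : ℝ) ^ 3 := pow_le_pow_left₀ (by norm_num) hN' 3
  have h5 : (N : ℝ) ^ 4 = (N : ℝ) ^ 3 * N := by ring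
  rw [h5]
  nlinarith

end aux

/-- **Theorem.** Consider the uniform measure on the self-avoiding polygons `f` of perimeter `2N` on
`ℤ²`, `N` fixed, with an orientation and with a root `f(0) = 0`, which is either a uniform vertex or
the highest site of the polygon for a ranking which is compatible with translations. A ranking of
the sites is an injective map `ψ` from `ℤ²` to a linearly ordered set, and the highest site is the one
for which `ψ` is maximal.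

(1) For all `k ≥ 0` and `r ≥ 1` there is `C` such that the following holds for all rankings `φ 1, …,
φ k`. Let `Φ`, with values in `[0, 1]`, be a function of the arcs `(f(0), …, f(a))`, `(f(s), …,
f(s+m))`, `(f(2N-1-b), …, f(2N-1))`, let `E(s)` be the mean of `Φ` over the event that the `k` highest
sites are all on the three arcs, and let `L ≥ 0`, `E(s) ≥ e^(-L)`. If `s - a ≥ g` and
`2N - b - (s + m) > g`, where `g ≥ C (log² N + L)`, then `E(s + 2 i) > 0` for `i ≤ r`, and the `r`-th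
difference of `log E` as a function of the arc length `s` (with step `2`) is at most
`C ((log² N + L) / g)^(r/2)`.

(2) For every real `θ` and every `r ≥ 1` there is `C` such that the `r`-th differences (with step
`2`) of `log ⟨|f(t) - f(s)|^θ⟩` and of `log ⟨(1 + |y(f(t)) - y(f(s))|)^θ⟩` are at most
`C (log N / √g)^r` for `g ≥ C log² N`: as functions of `t` if `g ≤ t - s` and `g < 2N - t`, as
functions of `s` if `g ≤ s` and `g ≤ t - s`, and if `s` and `t` are shifted together, if `g ≤ s` and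
`g < 2N - t`.

(3) For every ranking, with the time `T` of the highest site (the arc length from the root to the
highest site), the `r`-th differences of `log P(T = t)` as a function of `t` (with step `2`) are at
most `C_r ((log² N + L) / g)^(r/2)` if `g ≤ t`, `g < 2N - t`, `P(T = t) ≥ e^(-L)`, `L ≥ 0` and
`g ≥ C_r (log² N + L)`; and there is `C` with `P(T = t) ≤ C log N / √g` if `g ≤ t`, `g < 2N - t` and
`g ≥ C log² N`. -/
theorem result :
    (∀ k r : ℕ, 1 ≤ r → ∃ C : ℝ, 0 < C ∧ ∀ (α : Type) (_ : LinearOrder α)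
      (ρ : Option (ℤ × ℤ → α)), Good ρ →
      ∀ (φ : Fin k → ℤ × ℤ → α), (∀ i, Function.Injective (φ i)) → ∀ (N a m b s g : ℕ)
      (Φ : (Fin (a + 1) → ℤ × ℤ) × (Fin (m + 1) → ℤ × ℤ) × (Fin (b + 1) → ℤ × ℤ) → ℝ) (L : ℝ),
      2 ≤ N → (∀ x, 0 ≤ Φ x ∧ Φ x ≤ 1) → 0 ≤ L →
      Real.exp (-L) ≤ topMean ρ φ N a m b s Φ →
      a + g ≤ s → s + m + g + b < 2 * N → C * (Real.log N ^ 2 + L) ≤ g →
      (∀ i, i ≤ r → 0 < topMean ρ φ N a m b (s + 2 * i) Φ) ∧
      |diff r (fun i => Real.log (topMean ρ φ N a m b (s + 2 * i) Φ))| ≤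
        C * Real.sqrt ((Real.log N ^ 2 + L) / g) ^ r) ∧
    (∀ (θ : ℝ) (r : ℕ), 1 ≤ r → ∃ C : ℝ, 0 < C ∧ ∀ (α : Type) (_ : LinearOrder α)
      (ρ : Option (ℤ × ℤ → α)), Good ρ → ∀ N s t g : ℕ, 2 ≤ N → s < t →
      C * Real.log N ^ 2 ≤ g →
      (s + g ≤ t → t + g < 2 * N →
        |diff r (fun i => Real.log (chord ρ θ N s (t + 2 * i)))| ≤
          C * (Real.log N / Real.sqrt g) ^ r ∧
        |diff r (fun i => Real.log (drop ρ θ N s (t + 2 * i)))| ≤
          C * (Real.log N / Real.sqrt g) ^ r) ∧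
      (g ≤ s → s + g ≤ t → t < 2 * N →
        |diff r (fun i => Real.log (chord ρ θ N (s + 2 * i) t))| ≤
          C * (Real.log N / Real.sqrt g) ^ r ∧
        |diff r (fun i => Real.log (drop ρ θ N (s + 2 * i) t))| ≤
          C * (Real.log N / Real.sqrt g) ^ r) ∧
      (g ≤ s → t + g < 2 * N →
        |diff r (fun i => Real.log (chord ρ θ N (s + 2 * i) (t + 2 * i)))| ≤
          C * (Real.log N / Real.sqrt g) ^ r ∧
        |diff r (fun i => Real.log (drop ρ θ N (s + 2 * i) (t + 2 * i)))| ≤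
          C * (Real.log N / Real.sqrt g) ^ r)) ∧
    (∀ r : ℕ, 1 ≤ r → ∃ C : ℝ, 0 < C ∧ ∀ (α : Type) (_ : LinearOrder α)
      (ρ : Option (ℤ × ℤ → α)), Good ρ →
      ∀ (ψ : ℤ × ℤ → α), Function.Injective ψ → ∀ (N t g : ℕ) (L : ℝ), 2 ≤ N → 0 ≤ L →
      Real.exp (-L) ≤ prob ρ N (fun f => IsTop ψ f t) → g ≤ t → t + g < 2 * N →
      C * (Real.log N ^ 2 + L) ≤ g →
      (∀ i, i ≤ r → 0 < prob ρ N (fun f => IsTop ψ f (t + 2 * i))) ∧
      |diff r (fun i => Real.log (prob ρ N (fun f => IsTop ψ f (t + 2 * i))))| ≤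
        C * Real.sqrt ((Real.log N ^ 2 + L) / g) ^ r) ∧
    (∃ C : ℝ, 0 < C ∧ ∀ (α : Type) (_ : LinearOrder α)
      (ρ : Option (ℤ × ℤ → α)), Good ρ → ∀ (ψ : ℤ × ℤ → α), Function.Injective ψ →
      ∀ N t g : ℕ, 2 ≤ N → g ≤ t → t + g < 2 * N → C * Real.log N ^ 2 ≤ g →
        prob ρ N (fun f => IsTop ψ f t) ≤ C * (Real.log N / Real.sqrt g)) := by
  refine ⟨fun k r hr => ?_, fun θ r hr => ?_, fun r hr => Pool.Agent.U954.PG.one r hr,
    Pool.Agent.U954.PG.point⟩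
  · obtain ⟨C, hC, h⟩ := Pool.Agent.U954.PG.general k r hr
    exact ⟨C, hC, fun α _ ρ hρ φ hφ N a m b s g Φ L hN hΦ hL hm has hsn hg =>
      (h α inferInstance ρ hρ φ hφ N a m b s g Φ L hN hΦ hL hm has hsn hg).2⟩
  obtain ⟨C, hC, h⟩ := Pool.Agent.U954.PG.mom (4 * |θ|) (by positivity) r hr
  refine ⟨C, hC, fun α _ ρ hρ N s t g hN hst hg => ?_⟩
  refine ⟨fun h1 h2 => ⟨?_, ?_⟩, fun h1 h2 h3 => ⟨?_, ?_⟩, fun h1 h2 => ⟨?_, ?_⟩⟩
  · refine h α inferInstance ρ hρ N s 0 0 t g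
      (fun i f => norm2 (f ((t + 2 * i : ℕ) : ZMod (2 * N)) - f (s : ZMod (2 * N))) ^ θ)
      (fun x => norm2 (x.2.1 0 - x.1 (Fin.last s)) ^ θ) hN h1 (by omega) hg
      (fun hrg i hi w hw => ?_)
    have hw' := Pool.Agent.U954.PG.LW_sub hw
    simp only [Pool.Agent.U954.PG.parts, Pool.Agent.U954.PG.arc, Fin.val_zero, Fin.val_last,
      Nat.add_zero, Nat.zero_add]
    rw [Pool.Agent.U954.PG.lp_at w _ (by omega) hN, Pool.Agent.U954.PG.lp_at w _ (by omega) hN]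
    obtain ⟨b1, b2⟩ := norm_bd hN hw' (s := s) (t := t + 2 * i) (by omega) (by omega) (by omega)
    exact ⟨by trivial, pow_bd θ hN b1 b2⟩
  · refine h α inferInstance ρ hρ N s 0 0 t g
      (fun i f => (1 + |(((f ((t + 2 * i : ℕ) : ZMod (2 * N))).2 -
        (f (s : ZMod (2 * N))).2 : ℤ) : ℝ)|) ^ θ)
      (fun x => (1 + |(((x.2.1 0).2 - (x.1 (Fin.last s)).2 : ℤ) : ℝ)|) ^ θ) hN h1 (by omega) hg
      (fun hrg i hi w hw => ?_)
    have hw' := Pool.Agent.U954.PG.LW_sub hw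
    simp only [Pool.Agent.U954.PG.parts, Pool.Agent.U954.PG.arc, Fin.val_zero, Fin.val_last,
      Nat.add_zero, Nat.zero_add]
    rw [Pool.Agent.U954.PG.lp_at w _ (by omega) hN, Pool.Agent.U954.PG.lp_at w _ (by omega) hN]
    obtain ⟨b1, b2⟩ := drop_bd hN hw' (s := s) (t := t + 2 * i) (by omega) (by omega)
    exact ⟨by trivial, pow_bd θ hN b1 b2⟩
  · refine h α inferInstance ρ hρ N 0 0 (2 * N - 1 - t) s g
      (fun i f => norm2 (f (t : ZMod (2 * N)) - f ((s + 2 * i : ℕ) : ZMod (2 * N))) ^ θ)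
      (fun x => norm2 (x.2.2 0 - x.2.1 0) ^ θ) hN (by omega) (by omega) hg
      (fun hrg i hi w hw => ?_)
    have hw' := Pool.Agent.U954.PG.LW_sub hw
    simp only [Pool.Agent.U954.PG.parts, Pool.Agent.U954.PG.arc, Fin.val_zero,
      Nat.add_zero]
    rw [show 2 * N - 1 - (2 * N - 1 - t) = t by omega]
    rw [Pool.Agent.U954.PG.lp_at w _ (by omega) hN, Pool.Agent.U954.PG.lp_at w _ (by omega) hN]
    obtain ⟨b1, b2⟩ := norm_bd hN hw' (s := s + 2 * i) (t := t) (by omega) (by omega) (by omega)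
    exact ⟨by trivial, pow_bd θ hN b1 b2⟩
  · refine h α inferInstance ρ hρ N 0 0 (2 * N - 1 - t) s g
      (fun i f => (1 + |(((f (t : ZMod (2 * N))).2 -
        (f ((s + 2 * i : ℕ) : ZMod (2 * N))).2 : ℤ) : ℝ)|) ^ θ)
      (fun x => (1 + |(((x.2.2 0).2 - (x.2.1 0).2 : ℤ) : ℝ)|) ^ θ) hN (by omega) (by omega) hg
      (fun hrg i hi w hw => ?_)
    have hw' := Pool.Agent.U954.PG.LW_sub hw
    simp only [Pool.Agent.U954.PG.parts, Pool.Agent.U954.PG.arc, Fin.val_zero,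
      Nat.add_zero]
    rw [show 2 * N - 1 - (2 * N - 1 - t) = t by omega]
    rw [Pool.Agent.U954.PG.lp_at w _ (by omega) hN, Pool.Agent.U954.PG.lp_at w _ (by omega) hN]
    obtain ⟨b1, b2⟩ := drop_bd hN hw' (s := s + 2 * i) (t := t) (by omega) (by omega)
    exact ⟨by trivial, pow_bd θ hN b1 b2⟩
  · refine h α inferInstance ρ hρ N 0 (t - s) 0 s g
      (fun i f => norm2 (f ((t + 2 * i : ℕ) : ZMod (2 * N)) -
        f ((s + 2 * i : ℕ) : ZMod (2 * N))) ^ θ)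
      (fun x => norm2 (x.2.1 (Fin.last (t - s)) - x.2.1 0) ^ θ) hN (by omega) (by omega) hg
      (fun hrg i hi w hw => ?_)
    have hw' := Pool.Agent.U954.PG.LW_sub hw
    simp only [Pool.Agent.U954.PG.parts, Pool.Agent.U954.PG.arc, Fin.val_zero, Fin.val_last,
      Nat.add_zero]
    rw [show s + 2 * i + (t - s) = t + 2 * i by omega]
    rw [Pool.Agent.U954.PG.lp_at w _ (by omega) hN, Pool.Agent.U954.PG.lp_at w _ (by omega) hN]
    obtain ⟨b1, b2⟩ := norm_bd hN hw' (s := s + 2 * i) (t := t + 2 * i) (by omega) (by omega)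
      (by omega)
    exact ⟨by trivial, pow_bd θ hN b1 b2⟩
  · refine h α inferInstance ρ hρ N 0 (t - s) 0 s g
      (fun i f => (1 + |(((f ((t + 2 * i : ℕ) : ZMod (2 * N))).2 -
        (f ((s + 2 * i : ℕ) : ZMod (2 * N))).2 : ℤ) : ℝ)|) ^ θ)
      (fun x => (1 + |(((x.2.1 (Fin.last (t - s))).2 - (x.2.1 0).2 : ℤ) : ℝ)|) ^ θ)
      hN (by omega) (by omega) hg
      (fun hrg i hi w hw => ?_)
    have hw' := Pool.Agent.U954.PG.LW_sub hw
    simp only [Pool.Agent.U954.PG.parts, Pool.Agent.U954.PG.arc, Fin.val_zero, Fin.val_last,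
      Nat.add_zero]
    rw [show s + 2 * i + (t - s) = t + 2 * i by omega]
    rw [Pool.Agent.U954.PG.lp_at w _ (by omega) hN, Pool.Agent.U954.PG.lp_at w _ (by omega) hN]
    obtain ⟨b1, b2⟩ := drop_bd hN hw' (s := s + 2 * i) (t := t + 2 * i) (by omega) (by omega)
    exact ⟨by trivial, pow_bd θ hN b1 b2⟩

end Pool.Agent.Results.MP_376faf_co.ArcLengths
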