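import Pool.Agent.U954.TA.Half
import Pool.Agent.U954.TA.Top

/-!
Self-avoiding walk in the closed upper half-plane with a fixed number `n` of steps: regularity to all
orders, in the times, of the laws of the pieces, of the moments of the displacements and of the
heights, and of the times at which the walk is at its highest site for any rankings of the sites.
-/

set_option autoImplicit false

open scoped Classical

namespace Pool.Agent.Results.MP_df1d0b_pr.HalfPlaneTimes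

/-- `ω` is an `n`-step self-avoiding walk on `ℤ²` started at the origin. -/
def IsSAW (n : ℕ) (ω : Fin (n + 1) → ℤ × ℤ) : Prop :=
  ω 0 = (0, 0) ∧
  (∀ i : Fin n, |(ω i.succ).1 - (ω i.castSucc).1| + |(ω i.succ).2 - (ω i.castSucc).2| = 1) ∧
  Function.Injective ω

/-- `ω` is an `n`-step self-avoiding walk started at the origin in the closed upper half-plane. -/
def IsHalf (n : ℕ) (ω : Fin (n + 1) → ℤ × ℤ) : Prop := IsSAW n ω ∧ ∀ i, 0 ≤ (ω i).2

/-- The mean of `F` under the uniform measure `μ_n` on the `n`-step half-plane walks. -/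
noncomputable def mean (n : ℕ) (F : (Fin (n + 1) → ℤ × ℤ) → ℝ) : ℝ :=
  (∑ᶠ ω ∈ {ω | IsHalf n ω}, F ω) / ({ω | IsHalf n ω}.ncard : ℝ)

/-- The probability of the event `E` under `μ_n`. -/
noncomputable def prob (n : ℕ) (E : (Fin (n + 1) → ℤ × ℤ) → Prop) : ℝ :=
  mean n (fun ω => if E ω then 1 else 0)

/-- The piece `(ω(i), ω(i+1), …, ω(i+m))` of the walk (used only when `i + m ≤ n`). -/
def piece {n : ℕ} (i m : ℕ) (ω : Fin (n + 1) → ℤ × ℤ) : Fin (m + 1) → ℤ × ℤ :=
  fun j => ω (Fin.ofNat (n + 1) (i + j))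

/-- The first `a` steps, the piece with `m` steps started at time `s`, and the last `b` steps of the
walk; all of them are given by the positions of the walk. -/
def parts {n : ℕ} (a m b s : ℕ) (ω : Fin (n + 1) → ℤ × ℤ) :
    (Fin (a + 1) → ℤ × ℤ) × (Fin (m + 1) → ℤ × ℤ) × (Fin (b + 1) → ℤ × ℤ) :=
  (piece 0 a ω, piece s m ω, piece (n - b) b ω)

/-- The time `t` is in one of the three time intervals of `parts`. -/
def InParts (n a m b s t : ℕ) : Prop := t ≤ a ∨ (s ≤ t ∧ t ≤ s + m) ∨ (n - b ≤ t ∧ t ≤ n)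

/-- At time `t` the walk is at its highest site, for the ranking `φ` of the sites. -/
def IsTop {α : Type} [LinearOrder α] {n : ℕ} (φ : ℤ × ℤ → α) (ω : Fin (n + 1) → ℤ × ℤ) (t : ℕ) :
    Prop :=
  t ≤ n ∧ ∀ u : Fin (n + 1), φ (ω u) ≤ φ (ω (Fin.ofNat (n + 1) t))

/-- The times of the highest sites, for the `k` rankings `φ i`, are all in the three time intervals
`[0, a]`, `[s, s + m]`, `[n - b, n]`. -/
def TopsIn {α : Type} [LinearOrder α] {k n : ℕ} (φ : Fin k → ℤ × ℤ → α) (a m b s : ℕ)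
    (ω : Fin (n + 1) → ℤ × ℤ) : Prop :=
  ∀ i, ∃ t, InParts n a m b s t ∧ IsTop (φ i) ω t

/-- The mean of `Φ (parts a m b s ω)` over the event `TopsIn φ a m b s`. -/
noncomputable def topMean {α : Type} [LinearOrder α] {k : ℕ} (φ : Fin k → ℤ × ℤ → α)
    (n a m b s : ℕ)
    (Φ : (Fin (a + 1) → ℤ × ℤ) × (Fin (m + 1) → ℤ × ℤ) × (Fin (b + 1) → ℤ × ℤ) → ℝ) : ℝ :=
  mean n (fun ω => if TopsIn φ a m b s ω then Φ (parts a m b s ω) else 0)

/-- The Euclidean norm of a point of `ℤ²`. -/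
noncomputable def norm2 (x : ℤ × ℤ) : ℝ := Real.sqrt ((x.1 : ℝ) ^ 2 + (x.2 : ℝ) ^ 2)

/-- The mean of `|ω(t) - ω(s)|^θ` under `μ_n` (`s, t ≤ n`). -/
noncomputable def moment (θ : ℝ) (n s t : ℕ) : ℝ :=
  mean n (fun ω => norm2 (ω (Fin.ofNat (n + 1) t) - ω (Fin.ofNat (n + 1) s)) ^ θ)

/-- The mean of `(1 + height of ω(t))^θ` under `μ_n` (`t ≤ n`). -/
noncomputable def height (θ : ℝ) (n t : ℕ) : ℝ :=
  mean n (fun ω => (1 + ((ω (Fin.ofNat (n + 1) t)).2 : ℝ)) ^ θ)

/-- The `r`-th difference `∑ (-1)^i C(r, i) f(i)` of a sequence. -/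
noncomputable def diff (r : ℕ) (f : ℕ → ℝ) : ℝ :=
  ∑ i ∈ Finset.range (r + 1), (-1 : ℝ) ^ i * (r.choose i : ℝ) * f i

section aux

open Pool.Agent.H976R2 Pool.Agent.U954.TA

/-- the closed upper half-plane -/
def HP : Set (ℤ × ℤ) := {v | 0 ≤ v.2}

/-- the half-plane walks -/
noncomputable def HW (n : ℕ) : Finset (List Dir) := (SW n).filter (fun w => Up (pth n w))

theorem up_iff {n : ℕ} {w : List Dir} (hw : w ∈ SW n) : Up (pth n w) ↔ InD HP w := by
  have hl : w.length = n := (mem_SW.1 hw).1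
  constructor
  · intro h t ht
    exact h ⟨t, by omega⟩
  · intro h i
    exact h i (by have := i.isLt; omega)

theorem half_set (n : ℕ) : {ω | IsHalf n ω} = {ω | Pool.Agent.H976R2.IsSAW n ω ∧ Up ω} := rfl

theorem half_card (n : ℕ) : ({ω | IsHalf n ω}.ncard : ℝ) = ((HW n).card : ℝ) := by
  rw [half_set, ncard_saw_filter]
  rfl

theorem mean_eq (n : ℕ) (F : (Fin (n + 1) → ℤ × ℤ) → ℝ) :
    mean n F = (∑ w ∈ HW n, F (pth n w)) / ((HW n).card : ℝ) := by
  unfold mean
  rw [half_card]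
  congr 1
  have h1 : ∑ᶠ ω ∈ {ω | IsHalf n ω}, F ω =
      ∑ᶠ ω ∈ {ω | Pool.Agent.H976R2.IsSAW n ω}, (if Up ω then F ω else 0) := by
    refine finsum_congr fun ω => ?_
    by_cases h : Pool.Agent.H976R2.IsSAW n ω
    · have h2 : ω ∈ {ω | Pool.Agent.H976R2.IsSAW n ω} := h
      rw [finsum_eq_if, finsum_eq_if, if_pos h2]
      by_cases h3 : Up ω
      · rw [if_pos h3, if_pos (show ω ∈ {ω | IsHalf n ω} from ⟨h, h3⟩)]
      · rw [if_neg h3, if_neg (fun hc : ω ∈ {ω | IsHalf n ω} => h3 hc.2)]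
    · rw [finsum_eq_if, finsum_eq_if,
        if_neg (show ω ∉ {ω | Pool.Agent.H976R2.IsSAW n ω} from h),
        if_neg (fun hc : ω ∈ {ω | IsHalf n ω} => h hc.1)]
  rw [h1, finsum_saw]
  unfold HW
  rw [Finset.sum_filter]

theorem pth_at {n : ℕ} (w : List Dir) (k : ℕ) (h : k ≤ n) :
    pth n w (Fin.ofNat (n + 1) k) = Lip.PP w k := by
  have e : ((Fin.ofNat (n + 1) k : Fin (n + 1)) : ℕ) = k := by
    simp [Nat.mod_eq_of_lt (show k < n + 1 by omega)]
  unfold pth Lip.PP
  rw [e]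

theorem pth_fin {n : ℕ} (w : List Dir) (u : Fin (n + 1)) : pth n w u = Lip.PP w u := rfl

theorem piece_pth {n i m : ℕ} (w : List Dir) (h : i + m ≤ n) (j : Fin (m + 1)) :
    piece i m (pth n w) j = Lip.PP w (i + j) := by
  have hj := j.isLt
  exact pth_at w (i + j) (by omega)

/-- the function on sequences of positions -/
noncomputable def Ps {a m b : ℕ}
    (Φ : (Fin (a + 1) → ℤ × ℤ) × (Fin (m + 1) → ℤ × ℤ) × (Fin (b + 1) → ℤ × ℤ) → ℝ)
    (x y u : ℕ → ℤ × ℤ) : ℝ := Φ (fun j => x j, fun j => y j, fun j => u j)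

theorem isTop_iff {α : Type} [LinearOrder α] (φ : ℤ × ℤ → α) {n t : ℕ} (w : List Dir) :
    IsTop φ (pth n w) t ↔ Tp φ n w t := by
  unfold IsTop Tp
  constructor
  · rintro ⟨h1, h2⟩
    refine ⟨h1, fun u hu => ?_⟩
    have h3 := h2 ⟨u, by omega⟩
    rw [pth_at w t h1, pth_fin] at h3
    exact h3
  · rintro ⟨h1, h2⟩
    refine ⟨h1, fun u => ?_⟩
    rw [pth_at w t h1, pth_fin]
    exact h2 u (by have := u.isLt; omega)

theorem topMean_eq {α : Type} [LinearOrder α] {k : ℕ} (φ : Fin k → ℤ × ℤ → α) {n a m b s : ℕ}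
    (ha : a ≤ n) (hs : s + m ≤ n) (hb : b ≤ n)
    (Φ : (Fin (a + 1) → ℤ × ℤ) × (Fin (m + 1) → ℤ × ℤ) × (Fin (b + 1) → ℤ × ℤ) → ℝ) :
    topMean φ n a m b s Φ = GG HP φ a m b (Ps Φ) n s / ((HW n).card : ℝ) := by
  unfold topMean
  rw [mean_eq]
  congr 1
  unfold GG HW
  rw [Finset.sum_filter]
  refine Finset.sum_congr rfl fun w hw => ?_
  have hl : w.length = n := (mem_SW.1 hw).1
  have hpe : Φ (parts a m b s (pth n w)) = obF a m b (Ps Φ) s w := by
    unfold parts obF Ps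
    congr 1
    refine Prod.ext ?_ (Prod.ext ?_ ?_)
    · funext j
      have hj := j.isLt
      simp only
      rw [piece_pth w (by omega), Nat.zero_add, min_eq_left (by omega)]
    · funext j
      have hj := j.isLt
      simp only
      rw [piece_pth w (by omega), min_eq_left (by omega)]
    · funext j
      have hj := j.isLt
      simp only
      rw [piece_pth w (by omega), min_eq_left (by omega), hl]
  have hT : TopsIn φ a m b s (pth n w) ↔ ∀ i, ∃ t, InP n a m b s t ∧ Tp (φ i) n w t := by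
    unfold TopsIn
    refine forall_congr' fun i => exists_congr fun t => ?_
    rw [isTop_iff]
    rfl
  unfold Et
  by_cases h1 : Up (pth n w)
  · rw [if_pos h1]
    by_cases h2 : TopsIn φ a m b s (pth n w)
    · rw [if_pos h2, if_pos ⟨(up_iff hw).mp h1, hT.mp h2⟩, hpe]
    · rw [if_neg h2, if_neg (fun hc => h2 (hT.mpr hc.2))]
  · rw [if_neg h1, if_neg (fun hc => h1 ((up_iff hw).mpr hc.1))]

theorem HW_pos {n : ℕ} (hn : 2 ≤ n) : (0 : ℝ) < ((HW n).card : ℝ) := by
  obtain ⟨K, hK, h⟩ := half_low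
  have h1 := h n hn
  have h2 := card_pos' n
  have h3 : 0 < Real.exp (K * Real.log n ^ 2) * ((HW n).card : ℝ) := lt_of_lt_of_le h2 h1
  exact pos_of_mul_pos_right h3 (Real.exp_pos _).le

/-- the general statement -/
theorem general (k r : ℕ) (hr : 1 ≤ r) : ∃ C : ℝ, 0 < C ∧ ∀ (α : Type) (_ : LinearOrder α)
    (φ : Fin k → ℤ × ℤ → α), (∀ i, Function.Injective (φ i)) → ∀ (n a m b s g : ℕ)
    (Φ : (Fin (a + 1) → ℤ × ℤ) × (Fin (m + 1) → ℤ × ℤ) × (Fin (b + 1) → ℤ × ℤ) → ℝ) (L : ℝ),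
    2 ≤ n → (∀ x, 0 ≤ Φ x ∧ Φ x ≤ 1) → 0 ≤ L →
    Real.exp (-L) ≤ topMean φ n a m b s Φ →
    a + g ≤ s → s + m + g + b ≤ n → C * (Real.log n ^ 2 + L) ≤ g →
    2 * r ≤ g ∧ (∀ i, i ≤ r → 0 < topMean φ n a m b (s + 2 * i) Φ) ∧
    |diff r (fun i => Real.log (topMean φ n a m b (s + 2 * i) Φ))| ≤
      C * Real.sqrt ((Real.log n ^ 2 + L) / g) ^ r := by
  obtain ⟨C, hC, h⟩ := engTop k r hr
  obtain ⟨K, hK, hlow⟩ := half_low
  obtain ⟨κ, hκ⟩ : ∃ κ : ℝ, κ = K + 2 := ⟨_, rfl⟩
  have hκ1 : 1 ≤ κ := by rw [hκ]; linarith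
  refine ⟨C * (1 + κ) + C * Real.sqrt κ ^ r + 2 * r + 1, by positivity,
    fun α _ φ hφ n a m b s g Φ L hn hΦ hL hm has hsn hg => ?_⟩
  have hn' : (2 : ℝ) ≤ n := by exact_mod_cast hn
  have hlog0 : (0.69 : ℝ) ≤ Real.log n := by
    have h1 : Real.log 2 ≤ Real.log n := Real.log_le_log (by norm_num) hn'
    have := Real.log_two_gt_d9
    linarith
  have hr0 : (0 : ℝ) ≤ r := Nat.cast_nonneg r
  have hl2 : Real.log n ≤ 2 * Real.log n ^ 2 := by nlinarith
  have hlsq : 0.47 ≤ Real.log n ^ 2 := by nlinarith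
  obtain ⟨y, hy⟩ : ∃ y : ℝ, y = Real.log n ^ 2 + L := ⟨_, rfl⟩
  rw [← hy] at hg ⊢
  have hy0 : 0.47 ≤ y := by rw [hy]; linarith
  have hCs : 0 ≤ C * Real.sqrt κ ^ r := by positivity
  have hCκ : 0 ≤ C * (1 + κ) := by positivity
  have hg1 : C * (Real.log n ^ 2 + κ * y) ≤ g := by
    refine le_trans ?_ hg
    calc C * (Real.log n ^ 2 + κ * y) ≤ C * (y + κ * y) := by
          refine mul_le_mul_of_nonneg_left ?_ hC.le
          rw [hy]
          linarith
      _ = C * (1 + κ) * y := by ring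
      _ ≤ _ := mul_le_mul_of_nonneg_right (by linarith) (by linarith)
  have hgr : 2 * r ≤ g := by
    obtain ⟨α0, hα0⟩ : ∃ x : ℝ, x = (C * (1 + κ) + C * Real.sqrt κ ^ r + 2 * r + 1) * y :=
      ⟨_, rfl⟩
    -- from `engTop`
    have h7 := h α inferInstance HP φ hφ n a m b s g (Ps Φ) (κ * y) ((HW n).card : ℝ)
      (fun i => GG HP φ a m b (Ps Φ) n (s + 2 * i) / ((HW n).card : ℝ)) hn
      (fun x y z => hΦ _) (by
        have : κ * Real.log n ^ 2 ≤ κ * y := mul_le_mul_of_nonneg_left (by rw [hy]; linarith)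
          (by linarith)
        have h8 : 2 * Real.log n ^ 2 ≤ κ * Real.log n ^ 2 :=
          mul_le_mul_of_nonneg_right (by rw [hκ]; linarith) (sq_nonneg _)
        linarith) (HW_pos hn) (by
        refine (hlow n hn).trans (mul_le_mul_of_nonneg_right (Real.exp_le_exp.mpr ?_)
          (Nat.cast_nonneg _))
        have h8 : K * Real.log n ^ 2 ≤ κ * Real.log n ^ 2 :=
          mul_le_mul_of_nonneg_right (by rw [hκ]; linarith) (sq_nonneg _)
        have : κ * Real.log n ^ 2 ≤ κ * y := mul_le_mul_of_nonneg_left (by rw [hy]; linarith)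
          (by linarith)
        linarith) (by
        have e0 := topMean_eq φ (n := n) (a := a) (m := m) (b := b) (s := s) (by omega) (by omega)
          (by omega) Φ
        show _ ≤ GG HP φ a m b (Ps Φ) n (s + 2 * 0) / ((HW n).card : ℝ)
        rw [Nat.mul_zero, Nat.add_zero, ← e0]
        refine le_trans (Real.exp_le_exp.mpr ?_) hm
        have : 1 * y ≤ κ * y := mul_le_mul_of_nonneg_right hκ1 (by linarith)
        have : 0 ≤ Real.log n ^ 2 := sq_nonneg _
        linarith) (fun i _ => rfl) has hsn hg1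
    exact h7.1
  have ei : ∀ i, i ≤ r → topMean φ n a m b (s + 2 * i) Φ =
      GG HP φ a m b (Ps Φ) n (s + 2 * i) / ((HW n).card : ℝ) := fun i hi =>
    topMean_eq φ (by omega) (by omega) (by omega) Φ
  have h7 := h α inferInstance HP φ hφ n a m b s g (Ps Φ) (κ * y) ((HW n).card : ℝ)
      (fun i => topMean φ n a m b (s + 2 * i) Φ) hn
      (fun x y z => hΦ _) (by
        have : κ * Real.log n ^ 2 ≤ κ * y := mul_le_mul_of_nonneg_left (by rw [hy]; linarith)
          (by linarith)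
        have h8 : 2 * Real.log n ^ 2 ≤ κ * Real.log n ^ 2 :=
          mul_le_mul_of_nonneg_right (by rw [hκ]; linarith) (sq_nonneg _)
        linarith) (HW_pos hn) (by
        refine (hlow n hn).trans (mul_le_mul_of_nonneg_right (Real.exp_le_exp.mpr ?_)
          (Nat.cast_nonneg _))
        have h8 : K * Real.log n ^ 2 ≤ κ * Real.log n ^ 2 :=
          mul_le_mul_of_nonneg_right (by rw [hκ]; linarith) (sq_nonneg _)
        have : κ * Real.log n ^ 2 ≤ κ * y := mul_le_mul_of_nonneg_left (by rw [hy]; linarith)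
          (by linarith)
        linarith) (by
        simp only [Nat.mul_zero, Nat.add_zero]
        refine le_trans (Real.exp_le_exp.mpr ?_) hm
        have : 1 * y ≤ κ * y := mul_le_mul_of_nonneg_right hκ1 (by linarith)
        have : 0 ≤ Real.log n ^ 2 := sq_nonneg _
        linarith) ei has hsn hg1
  refine ⟨hgr, h7.2.1, ?_⟩
  refine le_trans h7.2.2 ?_
  have e5 : Real.sqrt (κ * y / g) = Real.sqrt κ * Real.sqrt (y / g) := by
    rw [← Real.sqrt_mul (by linarith)]
    congr 1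
    ring
  rw [e5, mul_pow, ← mul_assoc]
  refine mul_le_mul_of_nonneg_right ?_ (by positivity)
  linarith

theorem diff_const (r : ℕ) (hr : 1 ≤ r) (f : ℕ → ℝ) (c : ℝ) :
    diff r (fun i => f i + c) = diff r f := df_const r hr f c

/-- positive quantities which are not too large and not too small -/
theorem mom (κ : ℝ) (hκ : 0 ≤ κ) (r : ℕ) (hr : 1 ≤ r) : ∃ C : ℝ, 0 < C ∧ ∀ (n a m b q g : ℕ)
    (Y : ℕ → (Fin (n + 1) → ℤ × ℤ) → ℝ)
    (X : (Fin (a + 1) → ℤ × ℤ) × (Fin (m + 1) → ℤ × ℤ) × (Fin (b + 1) → ℤ × ℤ) → ℝ), 2 ≤ n →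
    a + g ≤ q → q + m + g + b ≤ n → C * Real.log n ^ 2 ≤ g →
    (2 * r + 1 ≤ g → ∀ i, i ≤ r → ∀ w ∈ HW n, Y i (pth n w) = X (parts a m b (q + 2 * i) (pth n w)) ∧
      Y i (pth n w) ≤ Real.exp (κ * Real.log n) ∧ Real.exp (-(κ * Real.log n)) ≤ Y i (pth n w)) →
    |diff r (fun i => Real.log (mean n (Y i)))| ≤ C * (Real.log n / Real.sqrt g) ^ r := by
  obtain ⟨C, hC, h⟩ := general 0 r hr
  obtain ⟨c, hc⟩ : ∃ c : ℝ, c = 1 + 4 * κ := ⟨_, rfl⟩
  have hc1 : 1 ≤ c := by rw [hc]; linarith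
  refine ⟨C * c + C * Real.sqrt c ^ r + 5 * (r + 1), by positivity,
    fun n a m b q g Y X hn haq hqn hg hY => ?_⟩
  have hn' : (2 : ℝ) ≤ n := by exact_mod_cast hn
  have hlog0 : (0.69 : ℝ) ≤ Real.log n := by
    have h1 : Real.log 2 ≤ Real.log n := Real.log_le_log (by norm_num) hn'
    have := Real.log_two_gt_d9
    linarith
  have hl2 : Real.log n ≤ 2 * Real.log n ^ 2 := by nlinarith
  have hlsq : 0.47 ≤ Real.log n ^ 2 := by nlinarith
  have hr0 : (0 : ℝ) ≤ r := Nat.cast_nonneg r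
  have hCs : 0 ≤ C * Real.sqrt c ^ r := by positivity
  have hCc : 0 ≤ C * c := by positivity
  have hgr : 2 * r + 1 ≤ g := by
    have h1 : 5 * ((r : ℝ) + 1) * 0.47 ≤ 5 * ((r : ℝ) + 1) * Real.log n ^ 2 :=
      mul_le_mul_of_nonneg_left hlsq (by positivity)
    have h2 : 5 * ((r : ℝ) + 1) * Real.log n ^ 2 ≤
        (C * c + C * Real.sqrt c ^ r + 5 * (r + 1)) * Real.log n ^ 2 :=
      mul_le_mul_of_nonneg_right (by linarith) (by linarith)
    have h3 : 2 * (r : ℝ) + 1 ≤ g := by linarith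
    exact_mod_cast h3
  have hY' := hY hgr
  have hh := HW_pos hn
  obtain ⟨M, hM⟩ : ∃ M : ℝ, M = Real.exp (κ * Real.log n) := ⟨_, rfl⟩
  have hM0 : 0 < M := by rw [hM]; exact Real.exp_pos _
  obtain ⟨Φ, hΦ⟩ : ∃ Φ : (Fin (a + 1) → ℤ × ℤ) × (Fin (m + 1) → ℤ × ℤ) ×
      (Fin (b + 1) → ℤ × ℤ) → ℝ, ∀ x, Φ x = min 1 (max 0 (X x / M)) := ⟨_, fun _ => rfl⟩
  have hΦ01 : ∀ x, 0 ≤ Φ x ∧ Φ x ≤ 1 := fun x => by
    rw [hΦ]
    exact ⟨le_min zero_le_one (le_max_left _ _), min_le_left _ _⟩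
  obtain ⟨φ, hφ⟩ : ∃ φ : Fin 0 → ℤ × ℤ → ℕ, True := ⟨fun _ _ => 0, trivial⟩
  have hmi : ∀ i, i ≤ r → topMean φ n a m b (q + 2 * i) Φ = mean n (Y i) / M ∧
      Real.exp (-(2 * κ * Real.log n)) ≤ mean n (Y i) / M := by
    intro i hi
    have e1 : ∀ w ∈ HW n, Φ (parts a m b (q + 2 * i) (pth n w)) = Y i (pth n w) / M ∧
        Real.exp (-(2 * κ * Real.log n)) ≤ Y i (pth n w) / M := by
      intro w hw
      obtain ⟨b1, b2, b3⟩ := hY' i hi w hw
      have b4 : 0 < Y i (pth n w) := lt_of_lt_of_le (Real.exp_pos _) b3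
      constructor
      · rw [hΦ, ← b1, max_eq_right (by positivity), min_eq_right]
        rw [div_le_one hM0, hM]
        exact b2
      · rw [le_div_iff₀ hM0, hM, ← Real.exp_add]
        refine le_trans (le_of_eq ?_) b3
        congr 1
        ring
    constructor
    · unfold topMean
      rw [mean_eq, mean_eq]
      have e8 : (∑ w ∈ HW n, Y i (pth n w)) / ((HW n).card : ℝ) / M =
          (∑ w ∈ HW n, Y i (pth n w) / M) / ((HW n).card : ℝ) := by
        rw [div_right_comm, Finset.sum_div]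
      rw [e8]
      refine congrArg (· / ((HW n).card : ℝ)) ?_
      refine Finset.sum_congr rfl fun w hw => ?_
      rw [if_pos (show TopsIn φ a m b (q + 2 * i) (pth n w) from fun j => j.elim0)]
      exact (e1 w hw).1
    · rw [mean_eq, div_right_comm, Finset.sum_div, le_div_iff₀ hh]
      have e9 : Real.exp (-(2 * κ * Real.log n)) * ((HW n).card : ℝ) =
          ∑ _w ∈ HW n, Real.exp (-(2 * κ * Real.log n)) := by
        rw [Finset.sum_const, nsmul_eq_mul]
        ring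
      rw [e9]
      exact Finset.sum_le_sum fun w hw => (e1 w hw).2
  have h1 := h ℕ inferInstance φ (fun j => j.elim0) n a m b q g Φ (2 * κ * Real.log n) hn hΦ01
    (by positivity)
    (by
      have := hmi 0 (by omega)
      simp only [Nat.mul_zero, Nat.add_zero] at this
      rw [this.1]
      exact this.2) haq hqn
    (by
      refine le_trans ?_ hg
      have h5 : 2 * κ * Real.log n ≤ 2 * κ * (2 * Real.log n ^ 2) :=
        mul_le_mul_of_nonneg_left hl2 (by positivity)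
      calc C * (Real.log n ^ 2 + 2 * κ * Real.log n)
          ≤ C * (Real.log n ^ 2 + 2 * κ * (2 * Real.log n ^ 2)) :=
            mul_le_mul_of_nonneg_left (by linarith) hC.le
        _ = C * c * Real.log n ^ 2 := by rw [hc]; ring
        _ ≤ _ := mul_le_mul_of_nonneg_right (by linarith) (sq_nonneg _))
  obtain ⟨-, h2, h3⟩ := h1
  have e4 : diff r (fun i => Real.log (mean n (Y i))) =
      diff r (fun i => Real.log (topMean φ n a m b (q + 2 * i) Φ)) := by
    rw [← diff_const r hr (fun i => Real.log (topMean φ n a m b (q + 2 * i) Φ)) (Real.log M)]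
    unfold diff
    refine Finset.sum_congr rfl fun i hi => ?_
    rw [Finset.mem_range] at hi
    have hp := h2 i (by omega)
    rw [(hmi i (by omega)).1] at hp
    have hp' : 0 < mean n (Y i) := by
      have := mul_pos hp hM0
      rwa [div_mul_cancel₀ _ hM0.ne'] at this
    simp only
    rw [(hmi i (by omega)).1, Real.log_div hp'.ne' hM0.ne']
    ring
  rw [e4]
  refine h3.trans ?_
  have hg0 : (0 : ℝ) < g := by
    have : 0 < (C * c + C * Real.sqrt c ^ r + 5 * (r + 1)) * Real.log n ^ 2 := by positivity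
    linarith
  have e5 : Real.sqrt ((Real.log n ^ 2 + 2 * κ * Real.log n) / g) ≤
      Real.sqrt c * (Real.log n / Real.sqrt g) := by
    have e6 : Real.log n / Real.sqrt g = Real.sqrt (Real.log n ^ 2 / g) := by
      rw [Real.sqrt_div (sq_nonneg _), Real.sqrt_sq (by linarith)]
    rw [e6, ← Real.sqrt_mul (by linarith)]
    apply Real.sqrt_le_sqrt
    rw [← mul_div_assoc]
    refine div_le_div_of_nonneg_right ?_ hg0.le
    have h5 : 2 * κ * Real.log n ≤ 2 * κ * (2 * Real.log n ^ 2) :=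
      mul_le_mul_of_nonneg_left hl2 (by positivity)
    rw [hc]
    linarith
  calc C * Real.sqrt ((Real.log n ^ 2 + 2 * κ * Real.log n) / g) ^ r
      ≤ C * (Real.sqrt c * (Real.log n / Real.sqrt g)) ^ r := by gcongr
    _ = C * Real.sqrt c ^ r * (Real.log n / Real.sqrt g) ^ r := by rw [mul_pow]; ring
    _ ≤ _ := mul_le_mul_of_nonneg_right (by linarith) (by positivity)

/-- powers -/
theorem pow_bd (θ : ℝ) {n : ℕ} (hn : 2 ≤ n) {y : ℝ} (h1 : 1 ≤ y) (h2 : y ≤ (n : ℝ) ^ 3) :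
    y ^ θ ≤ Real.exp (3 * |θ| * Real.log n) ∧ Real.exp (-(3 * |θ| * Real.log n)) ≤ y ^ θ := by
  have hn' : (2 : ℝ) ≤ n := by exact_mod_cast hn
  have hM : ((n : ℝ) ^ 3) ^ |θ| = Real.exp (3 * |θ| * Real.log n) := by
    rw [Real.rpow_def_of_pos (by positivity), Real.log_pow]
    congr 1
    push_cast
    ring
  have e1 : y ^ |θ| ≤ Real.exp (3 * |θ| * Real.log n) := by
    rw [← hM]
    exact Real.rpow_le_rpow (by linarith) h2 (abs_nonneg θ)
  constructor
  · exact (Real.rpow_le_rpow_of_exponent_le h1 (le_abs_self θ)).trans e1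
  · have e2 : y ^ (-|θ|) ≤ y ^ θ := Real.rpow_le_rpow_of_exponent_le h1 (neg_abs_le θ)
    refine le_trans ?_ e2
    rw [Real.rpow_neg (by linarith), Real.exp_neg]
    exact inv_anti₀ (Real.rpow_pos_of_pos (by linarith) _) e1

/-- the norm of the difference of two positions of a self-avoiding walk -/
theorem norm_bd {n : ℕ} (hn : 2 ≤ n) {w : List Dir} (hw : w ∈ SW n) {s t : ℕ} (hs : s ≤ n)
    (ht : t ≤ n) (hst : s ≠ t) :
    1 ≤ norm2 (Lip.PP w t - Lip.PP w s) ∧ norm2 (Lip.PP w t - Lip.PP w s) ≤ (n : ℝ) ^ 3 := by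
  obtain ⟨hl, hsaw⟩ := mem_SW.mp hw
  have a1 := Pool.Agent.N457.EX.PP_le w t (by omega)
  have a2 := Pool.Agent.N457.EX.PP_le w s (by omega)
  obtain ⟨x, hx⟩ : ∃ x, x = (Lip.PP w t).1 - (Lip.PP w s).1 := ⟨_, rfl⟩
  obtain ⟨y, hy⟩ : ∃ y, y = (Lip.PP w t).2 - (Lip.PP w s).2 := ⟨_, rfl⟩
  have hne : x ≠ 0 ∨ y ≠ 0 := by
    by_contra hcon
    push Not at hcon
    have h1 : Lip.PP w t = Lip.PP w s := by
      refine Prod.ext ?_ ?_ <;> omega
    exact hst (Lip.PP_inj hsaw (j := t) (k := s) (by omega) (by omega) h1).symm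
  have e : norm2 (Lip.PP w t - Lip.PP w s) = Real.sqrt ((x : ℝ) ^ 2 + (y : ℝ) ^ 2) := by
    unfold norm2
    rw [hx, hy]
    rfl
  rw [e]
  have h1 : 1 ≤ x ^ 2 + y ^ 2 := by
    rcases hne with h | h
    · have : 0 < x ^ 2 := by positivity
      nlinarith [sq_nonneg y]
    · have : 0 < y ^ 2 := by positivity
      nlinarith [sq_nonneg x]
  have h1' : (1 : ℝ) ≤ (x : ℝ) ^ 2 + (y : ℝ) ^ 2 := by exact_mod_cast h1
  refine ⟨Real.one_le_sqrt.mpr h1', ?_⟩
  have hx1 : |x| ≤ 2 * n := by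
    rw [hx]
    refine (abs_sub _ _).trans ?_
    have := a1.1
    have := a2.1
    omega
  have hy1 : |y| ≤ 2 * n := by
    rw [hy]
    refine (abs_sub _ _).trans ?_
    have := a1.2
    have := a2.2
    omega
  have hx2 : x ^ 2 ≤ (2 * n) ^ 2 := sq_le_sq' (by linarith [neg_abs_le x]) (by
    linarith [le_abs_self x])
  have hy2 : y ^ 2 ≤ (2 * n) ^ 2 := sq_le_sq' (by linarith [neg_abs_le y]) (by
    linarith [le_abs_self y])
  have hxy : (x : ℝ) ^ 2 + (y : ℝ) ^ 2 ≤ 8 * (n : ℝ) ^ 2 := by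
    have : x ^ 2 + y ^ 2 ≤ 8 * (n : ℤ) ^ 2 := by nlinarith
    exact_mod_cast this
  have hn' : (2 : ℝ) ≤ n := by exact_mod_cast hn
  rw [Real.sqrt_le_left (by positivity)]
  have h4 : (4 : ℝ) ≤ (n : ℝ) ^ 2 := by nlinarith
  have h16 : (16 : ℝ) ≤ (n : ℝ) ^ 4 := by nlinarith
  nlinarith [sq_nonneg (n : ℝ)]

/-- the first and the last site are not higher than the one at time `s` -/
def Mid {α : Type} [LinearOrder α] (φ : ℤ × ℤ → α)
    (x : (Fin 1 → ℤ × ℤ) × (Fin 1 → ℤ × ℤ) × (Fin 1 → ℤ × ℤ)) : Prop :=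
  φ (x.1 0) ≤ φ (x.2.1 0) ∧ φ (x.2.2 0) ≤ φ (x.2.1 0)

/-- one ranking -/
theorem one_eq {α : Type} [LinearOrder α] (φ : ℤ × ℤ → α) {n s : ℕ} (hs : s ≤ n) :
    topMean (k := 1) (fun _ => φ) n 0 0 0 s (fun x => if Mid φ x then 1 else 0) =
      prob n (fun ω => IsTop φ ω s) := by
  unfold topMean prob
  rw [mean_eq, mean_eq]
  congr 1
  refine Finset.sum_congr rfl fun w hw => ?_
  have hMid : Mid φ (parts 0 0 0 s (pth n w)) ↔ φ (Lip.PP w 0) ≤ φ (Lip.PP w s) ∧
      φ (Lip.PP w n) ≤ φ (Lip.PP w s) := by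
    unfold Mid parts
    simp only
    rw [piece_pth w (by omega), piece_pth w (by omega), piece_pth w (by omega)]
    simp only [Fin.val_zero, Nat.add_zero, Nat.sub_zero]
  by_cases h : IsTop φ (pth n w) s
  · have h0 := h.2 0
    have h1 := h.2 (Fin.last n)
    rw [pth_at w s hs, pth_fin] at h0 h1
    simp only [Fin.val_zero, Fin.val_last] at h0 h1
    have hT : TopsIn (k := 1) (fun _ => φ) 0 0 0 s (pth n w) := fun i =>
      ⟨s, Or.inr (Or.inl ⟨le_rfl, le_rfl⟩), h⟩
    rw [if_pos h, if_pos hT]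
    exact if_pos (hMid.mpr ⟨h0, h1⟩)
  · rw [if_neg h]
    by_cases hE : TopsIn (k := 1) (fun _ => φ) 0 0 0 s (pth n w)
    · rw [if_pos hE]
      refine if_neg fun hm => ?_
      obtain ⟨h0, h1⟩ := hMid.mp hm
      obtain ⟨t, ht1, ht2, ht3⟩ := hE 0
      apply h
      refine ⟨hs, fun u => (ht3 u).trans ?_⟩
      rw [pth_at w t ht2, pth_at w s hs]
      unfold InParts at ht1
      rcases ht1 with h2 | h2 | h2
      · have : t = 0 := by omega
        subst this
        exact h0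
      · have : t = s := by omega
        subst this
        exact le_rfl
      · have : t = n := by omega
        subst this
        exact h1
    · rw [if_neg hE]

theorem prob_nonneg (n : ℕ) (E : (Fin (n + 1) → ℤ × ℤ) → Prop) : 0 ≤ prob n E := by
  unfold prob
  rw [mean_eq]
  refine div_nonneg (Finset.sum_nonneg fun w _ => ?_) (Nat.cast_nonneg _)
  split_ifs <;> norm_num

/-- the sum of the probabilities -/
theorem sum_prob {α : Type} [LinearOrder α] (φ : ℤ × ℤ → α) (hφ : Function.Injective φ) {n s J : ℕ}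
    (hn : 2 ≤ n) (_ : s + 2 * J ≤ n) :
    ∑ j ∈ Finset.range (J + 1), prob n (fun ω => IsTop φ ω (s + 2 * j)) ≤ 1 := by
  have hc := HW_pos hn
  unfold prob
  simp only [mean_eq]
  rw [← Finset.sum_div, div_le_one hc, Finset.sum_comm]
  calc _ ≤ ∑ w ∈ HW n, (1 : ℝ) := by
        refine Finset.sum_le_sum fun w hw => ?_
        have hw' : w ∈ SW n := (Finset.mem_filter.mp hw).1
        rw [← Finset.sum_filter, Finset.sum_const, nsmul_eq_mul, mul_one]
        have h1 : ((Finset.range (J + 1)).filter (fun j => IsTop φ (pth n w) (s + 2 * j))).card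
            ≤ 1 := by
          rw [Finset.card_le_one]
          intro i hi j hj
          rw [Finset.mem_filter, isTop_iff] at hi hj
          obtain ⟨hl, hsaw⟩ := mem_SW.mp hw'
          obtain ⟨hi0, hi1, hi2⟩ := hi
          obtain ⟨hj0, hj1, hj2⟩ := hj
          have e3 := hφ (le_antisymm (hi2 _ hj1) (hj2 _ hi1))
          have := Lip.PP_inj hsaw (j := s + 2 * j) (k := s + 2 * i) (by omega) (by omega) e3
          omega
        exact_mod_cast h1
    _ = _ := by rw [Finset.sum_const, nsmul_eq_mul, mul_one]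

/-- the differences for one ranking -/
theorem one (r : ℕ) (hr : 1 ≤ r) : ∃ C : ℝ, 0 < C ∧ ∀ (α : Type) (_ : LinearOrder α)
      (φ : ℤ × ℤ → α), Function.Injective φ → ∀ (n t g : ℕ) (L : ℝ), 2 ≤ n → 0 ≤ L →
      Real.exp (-L) ≤ prob n (fun ω => IsTop φ ω t) → g ≤ t → t + g ≤ n →
      C * (Real.log n ^ 2 + L) ≤ g →
      (∀ i, i ≤ r → 0 < prob n (fun ω => IsTop φ ω (t + 2 * i))) ∧
      |diff r (fun i => Real.log (prob n (fun ω => IsTop φ ω (t + 2 * i))))| ≤
        C * Real.sqrt ((Real.log n ^ 2 + L) / g) ^ r := by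
  obtain ⟨C, hC, h⟩ := general 1 r hr
  refine ⟨C, hC, fun α _ φ hφ n t g L hn hL hp hgt htn hg => ?_⟩
  have h3 := h α inferInstance (fun _ => φ) (fun _ => hφ) n 0 0 0 t g
    (fun x => if Mid φ x then 1 else 0) L hn
    (fun x => by split_ifs <;> norm_num) hL (by rw [one_eq φ (by omega)]; exact hp) (by omega)
    (by omega) hg
  obtain ⟨h2, h4, h5⟩ := h3
  constructor
  · intro i hi
    have := h4 i hi
    rwa [one_eq φ (by omega)] at this
  · have e1 : diff r (fun i => Real.log (prob n (fun ω => IsTop φ ω (t + 2 * i)))) =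
        diff r (fun i => Real.log (topMean (k := 1) (fun _ => φ) n 0 0 0 (t + 2 * i)
          (fun x => if Mid φ x then 1 else 0))) := by
      unfold diff
      refine Finset.sum_congr rfl fun i hi => ?_
      rw [Finset.mem_range] at hi
      simp only
      rw [one_eq φ (by omega)]
    rw [e1]
    exact h5

/-- the bound for one ranking -/
theorem point : ∃ C : ℝ, 0 < C ∧ ∀ (α : Type) (_ : LinearOrder α) (φ : ℤ × ℤ → α),
    Function.Injective φ → ∀ n t g : ℕ, 2 ≤ n → g ≤ t → t + g ≤ n → C * Real.log n ^ 2 ≤ g →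
      prob n (fun ω => IsTop φ ω t) ≤ C * (Real.log n / Real.sqrt g) := by
  obtain ⟨C, hC, h⟩ := one 1 le_rfl
  obtain ⟨B, hB⟩ : ∃ B : ℝ, B = 6 * (C + 1) := ⟨_, rfl⟩
  refine ⟨100 * B, by rw [hB]; positivity, fun α _ φ hφ n t g hn hgt htn hg => ?_⟩
  have hn' : (2 : ℝ) ≤ n := by exact_mod_cast hn
  have hlog0 : (0.69 : ℝ) ≤ Real.log n := by
    have h1 : Real.log 2 ≤ Real.log n := Real.log_le_log (by norm_num) hn'
    have := Real.log_two_gt_d9
    linarith
  have hl2 : Real.log n ≤ 1.5 * Real.log n ^ 2 := by nlinarith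
  have hlsq : 0.47 ≤ Real.log n ^ 2 := by nlinarith
  have hB1 : 6 ≤ B := by rw [hB]; linarith
  have hg1 : 47 * B ≤ (g : ℝ) := by
    have : 100 * B * 0.47 ≤ 100 * B * Real.log n ^ 2 :=
      mul_le_mul_of_nonneg_left hlsq (by linarith)
    linarith
  have hg0 : (0 : ℝ) < g := by linarith
  have hsg : 0 < Real.sqrt g := Real.sqrt_pos.mpr hg0
  have hsg2 : Real.sqrt g ^ 2 = g := Real.sq_sqrt hg0.le
  have hgn : (g : ℝ) ≤ n := by
    have : g ≤ n := by omega
    exact_mod_cast this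
  obtain ⟨σ, hσ⟩ : ∃ σ : ℝ, σ = Real.log n / Real.sqrt g := ⟨_, rfl⟩
  have hσ0 : 0 < σ := by rw [hσ]; positivity
  have hσg : σ ^ 2 * g = Real.log n ^ 2 := by rw [hσ, div_pow, hsg2]; field_simp
  rw [← hσ]
  obtain ⟨P, hP⟩ : ∃ P : ℕ → ℝ, ∀ j, P j = prob n (fun ω => IsTop φ ω (t + 2 * j)) :=
    ⟨_, fun _ => rfl⟩
  have hP0 : P 0 = prob n (fun ω => IsTop φ ω t) := by rw [hP]; rfl
  rw [← hP0]
  have hP00 : 0 ≤ P 0 := by rw [hP0]; exact prob_nonneg _ _
  -- small probabilities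
  by_cases hsm : P 0 < Real.exp (-Real.log n)
  · have h3 : Real.exp (-Real.log n) ≤ 2 * σ := by
      rw [Real.exp_neg, Real.exp_log (by linarith), hσ, ← mul_div_assoc, le_div_iff₀ hsg,
        inv_mul_le_iff₀ (by linarith)]
      have h4 : Real.sqrt g ≤ n := by
        rw [Real.sqrt_le_left (by linarith)]
        nlinarith
      nlinarith
    have : 2 * σ ≤ 100 * B * σ := mul_le_mul_of_nonneg_right (by linarith) hσ0.le
    linarith
  push Not at hsm
  obtain ⟨δ, hδ⟩ : ∃ δ : ℝ, δ = B * σ := ⟨_, rfl⟩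
  have hδ0 : 0 < δ := by rw [hδ]; positivity
  obtain ⟨J, hJ⟩ : ∃ J : ℕ, J = ⌊1 / δ⌋₊ := ⟨_, rfl⟩
  have hJ1 : (J : ℝ) ≤ 1 / δ := by rw [hJ]; exact Nat.floor_le (by positivity)
  have hJ2 : 1 / δ < J + 1 := by rw [hJ]; exact Nat.lt_floor_add_one _
  have hJδ : (J : ℝ) * δ ≤ 1 := by
    rw [le_div_iff₀ hδ0] at hJ1
    exact hJ1
  have hJδ2 : 1 < ((J : ℝ) + 1) * δ := by
    rw [div_lt_iff₀ hδ0] at hJ2
    exact hJ2
  have hJg : 4 * J + 4 ≤ g := by
    have h3 : (J : ℝ) ≤ g / 8 := by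
      refine hJ1.trans ?_
      rw [div_le_div_iff₀ hδ0 (by norm_num), hδ]
      have h5 : 2 ≤ σ * g := by
        have h6 : (2 : ℝ) ^ 2 ≤ (σ * g) ^ 2 := by
          have : (σ * g) ^ 2 = Real.log n ^ 2 * g := by
            rw [← hσg]
            ring
          rw [this]
          have h7 : 0.47 * (47 * 6) ≤ Real.log n ^ 2 * g :=
            mul_le_mul hlsq (by linarith) (by norm_num) (by linarith)
          linarith
        exact (abs_le_of_sq_le_sq' h6 (by positivity)).2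
      have h8 : 6 * 2 ≤ B * (σ * g) := mul_le_mul hB1 h5 (by norm_num) (by linarith)
      linarith
    have h7 : 4 * (J : ℝ) + 4 ≤ g := by linarith
    exact_mod_cast h7
  have hfin := spread P δ J hδ0 hJδ hJδ2 hP00 (fun j hj hPj => by
      have hPj' : Real.exp (-(3 * Real.log n)) ≤ P j := by
        refine le_trans ?_ hPj
        calc Real.exp (-(3 * Real.log n)) ≤ Real.exp (-Real.log n + -1) := by
              apply Real.exp_le_exp.mpr
              linarith
          _ = Real.exp (-Real.log n) * Real.exp (-1) := Real.exp_add _ _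
          _ ≤ _ := mul_le_mul_of_nonneg_right hsm (Real.exp_pos _).le
      obtain ⟨g', hg'⟩ : ∃ g' : ℕ, g' = g / 2 := ⟨_, rfl⟩
      have hg'1 : g < 2 * (g' + 1) := by omega
      have hg'2 : (g : ℝ) < 2 * ((g' : ℝ) + 1) := by exact_mod_cast hg'1
      have hg'3 : (g : ℝ) ≤ 3 * g' := by linarith
      have hg'0 : (0 : ℝ) < g' := by linarith
      have h3 := h α inferInstance φ hφ n (t + 2 * j) g' (3 * Real.log n) hn (by linarith)
        (by rw [← hP]; exact hPj') (by omega) (by omega) (by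
          have h4 : C * (Real.log n ^ 2 + 3 * Real.log n) ≤ C * (5.5 * Real.log n ^ 2) :=
            mul_le_mul_of_nonneg_left (by linarith) hC.le
          have h5 : 3 * (C * (5.5 * Real.log n ^ 2)) ≤ 100 * B * Real.log n ^ 2 := by
            rw [hB]
            have : 0 ≤ C * Real.log n ^ 2 := by positivity
            linarith
          linarith)
      obtain ⟨h4, h5⟩ := h3
      have h6 := h4 1 le_rfl
      have e1 : diff 1 (fun i => Real.log (prob n (fun ω => IsTop φ ω (t + 2 * j + 2 * i)))) =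
          Real.log (P j) - Real.log (P (j + 1)) := by
        unfold diff
        rw [Finset.sum_range_succ, Finset.sum_range_one]
        simp only [hP]
        have e2 : t + 2 * j + 2 * 1 = t + 2 * (j + 1) := by ring
        rw [e2]
        simp
        ring
      rw [e1, pow_one] at h5
      rw [mul_one, show t + 2 * j + 2 = t + 2 * (j + 1) by ring, ← hP] at h6
      have h7 : C * Real.sqrt ((Real.log n ^ 2 + 3 * Real.log n) / g') ≤ δ := by
        have h8 : Real.sqrt ((Real.log n ^ 2 + 3 * Real.log n) / g') ≤ 5 * σ := by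
          rw [Real.sqrt_le_left (by positivity), div_le_iff₀ hg'0]
          have h9 : (5 * σ) ^ 2 * g' = 25 / 3 * (σ ^ 2 * (3 * g')) := by ring
          have h10 : σ ^ 2 * g ≤ σ ^ 2 * (3 * g') := mul_le_mul_of_nonneg_left hg'3 (by positivity)
          rw [h9]
          rw [hσg] at h10
          linarith
        calc C * Real.sqrt ((Real.log n ^ 2 + 3 * Real.log n) / g') ≤ C * (5 * σ) := by gcongr
          _ ≤ δ := by
            rw [hδ, hB]
            have : 0 ≤ C * σ := by positivity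
            linarith
      have h8 : Real.log (P j) - δ ≤ Real.log (P (j + 1)) := by
        have := (abs_le.mp h5).2
        linarith
      have hPjpos : 0 < P j := lt_of_lt_of_le (Real.exp_pos _) hPj'
      rw [← Real.exp_log hPjpos, ← Real.exp_add, ← Real.exp_log h6]
      apply Real.exp_le_exp.mpr
      linarith) (by
      have := sum_prob φ hφ (n := n) (s := t) (J := J) hn (by omega)
      simp only [hP]
      exact this)
  calc P 0 ≤ 3 * δ := hfin
    _ = 3 * B * σ := by rw [hδ]; ring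
    _ ≤ _ := mul_le_mul_of_nonneg_right (by linarith) hσ0.le

end aux

/-- **Theorem.** Let `μ_n` be the uniform measure on the `n`-step self-avoiding walks `ω` from `0` in
the closed upper half-plane of `ℤ²`, `n` fixed. A ranking of the sites is an injective map `φ` from
`ℤ²` to a linearly ordered set, and the time of the highest site is the time `t` at which `φ(ω(t))`
is maximal.

(1) For all `k ≥ 0` and `r ≥ 1` there is `C` such that the following holds for all rankings `φ 1, …,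
φ k`. Let `Φ`, with values in `[0, 1]`, be a function of the first `a` steps, of the piece with `m`
steps started at time `s`, and of the last `b` steps, let `E(s)` be the mean of `Φ` over the event
that the times of the `k` highest sites are all in the time intervals `[0, a]`, `[s, s + m]`,
`[n - b, n]`, and let `L ≥ 0`, `E(s) ≥ e^(-L)`. If `[a, s]` and `[s + m, n - b]` have lengths at
least `g ≥ C (log² n + L)`, then `E(s + 2 i) > 0` for `i ≤ r`, and the `r`-th difference of `log E`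
as a function of the time `s` (with step `2`) is at most `C ((log² n + L) / g)^(r/2)`.

(2) For every real `θ` and every `r ≥ 1` there is `C` such that the `r`-th differences (with step
`2`) of `log ⟨|ω(t) - ω(s)|^θ⟩` are at most `C (log n / √g)^r` for `g ≥ C log² n`: as a function
of `t` if `g ≤ t - s` and `g ≤ n - t`, as a function of `s` if `g ≤ s` and `g ≤ t - s`, and if `s` and
`t` are shifted together, for every value of `t - s > 0`, if `g ≤ s` and `g ≤ n - t`. The same holds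
for `log ⟨(1 + height of ω(t))^θ⟩` as a function of `t` if `g ≤ t` and `g ≤ n - t`.

(3) For every ranking, with the time `T` of the highest site, the `r`-th differences of
`log μ_n(T = t)` as a function of `t` (with step `2`) are at most `C_r ((log² n + L) / g)^(r/2)` if
`g ≤ t`, `g ≤ n - t`, `μ_n(T = t) ≥ e^(-L)`, `L ≥ 0` and `g ≥ C_r (log² n + L)`; and there is `C`
with `μ_n(T = t) ≤ C log n / √g` if `g ≤ t`, `g ≤ n - t` and `g ≥ C log² n`. -/
theorem result :
    (∀ k r : ℕ, 1 ≤ r → ∃ C : ℝ, 0 < C ∧ ∀ (α : Type) (_ : LinearOrder α)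
      (φ : Fin k → ℤ × ℤ → α), (∀ i, Function.Injective (φ i)) → ∀ (n a m b s g : ℕ)
      (Φ : (Fin (a + 1) → ℤ × ℤ) × (Fin (m + 1) → ℤ × ℤ) × (Fin (b + 1) → ℤ × ℤ) → ℝ) (L : ℝ),
      2 ≤ n → (∀ x, 0 ≤ Φ x ∧ Φ x ≤ 1) → 0 ≤ L →
      Real.exp (-L) ≤ topMean φ n a m b s Φ →
      a + g ≤ s → s + m + g + b ≤ n → C * (Real.log n ^ 2 + L) ≤ g →
      (∀ i, i ≤ r → 0 < topMean φ n a m b (s + 2 * i) Φ) ∧
      |diff r (fun i => Real.log (topMean φ n a m b (s + 2 * i) Φ))| ≤
        C * Real.sqrt ((Real.log n ^ 2 + L) / g) ^ r) ∧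
    (∀ (θ : ℝ) (r : ℕ), 1 ≤ r → ∃ C : ℝ, 0 < C ∧ ∀ n s t g : ℕ, 2 ≤ n → s < t →
      C * Real.log n ^ 2 ≤ g →
      (s + g ≤ t → t + g ≤ n →
        |diff r (fun i => Real.log (moment θ n s (t + 2 * i)))| ≤
          C * (Real.log n / Real.sqrt g) ^ r) ∧
      (g ≤ s → s + g ≤ t → t ≤ n →
        |diff r (fun i => Real.log (moment θ n (s + 2 * i) t))| ≤
          C * (Real.log n / Real.sqrt g) ^ r) ∧
      (g ≤ s → t + g ≤ n →
        |diff r (fun i => Real.log (moment θ n (s + 2 * i) (t + 2 * i)))| ≤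
          C * (Real.log n / Real.sqrt g) ^ r) ∧
      (g ≤ t → t + g ≤ n →
        |diff r (fun i => Real.log (height θ n (t + 2 * i)))| ≤
          C * (Real.log n / Real.sqrt g) ^ r)) ∧
    (∀ r : ℕ, 1 ≤ r → ∃ C : ℝ, 0 < C ∧ ∀ (α : Type) (_ : LinearOrder α)
      (φ : ℤ × ℤ → α), Function.Injective φ → ∀ (n t g : ℕ) (L : ℝ), 2 ≤ n → 0 ≤ L →
      Real.exp (-L) ≤ prob n (fun ω => IsTop φ ω t) → g ≤ t → t + g ≤ n →
      C * (Real.log n ^ 2 + L) ≤ g →
      (∀ i, i ≤ r → 0 < prob n (fun ω => IsTop φ ω (t + 2 * i))) ∧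
      |diff r (fun i => Real.log (prob n (fun ω => IsTop φ ω (t + 2 * i))))| ≤
        C * Real.sqrt ((Real.log n ^ 2 + L) / g) ^ r) ∧
    (∃ C : ℝ, 0 < C ∧ ∀ (α : Type) (_ : LinearOrder α) (φ : ℤ × ℤ → α), Function.Injective φ →
      ∀ n t g : ℕ, 2 ≤ n → g ≤ t → t + g ≤ n → C * Real.log n ^ 2 ≤ g →
        prob n (fun ω => IsTop φ ω t) ≤ C * (Real.log n / Real.sqrt g)) := by
  refine ⟨fun k r hr => ?_, fun θ r hr => ?_, fun r hr => one r hr, point⟩
  · obtain ⟨C, hC, h⟩ := general k r hr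
    exact ⟨C, hC, fun α _ φ hφ n a m b s g Φ L hn hΦ hL hm has hsn hg =>
      (h α inferInstance φ hφ n a m b s g Φ L hn hΦ hL hm has hsn hg).2⟩
  obtain ⟨C, hC, h⟩ := mom (3 * |θ|) (by positivity) r hr
  refine ⟨C, hC, fun n s t g hn hst hg => ?_⟩
  have hn' : (2 : ℝ) ≤ n := by exact_mod_cast hn
  refine ⟨fun h1 h2 => ?_, fun h1 h2 h3 => ?_, fun h1 h2 => ?_, fun h1 h2 => ?_⟩
  · refine h n s 0 0 t g
      (fun i ω => norm2 (ω (Fin.ofNat (n + 1) (t + 2 * i)) - ω (Fin.ofNat (n + 1) s)) ^ θ)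
      (fun x => norm2 (x.2.1 0 - x.1 (Fin.last s)) ^ θ) hn h1 (by omega) hg
      (fun hrg i hi w hw => ?_)
    have hw' : w ∈ Pool.Agent.H976R2.SW n := (Finset.mem_filter.mp hw).1
    simp only [parts]
    rw [piece_pth w (by omega), piece_pth w (by omega), pth_at w _ (by omega),
      pth_at w _ (by omega)]
    obtain ⟨b1, b2⟩ := norm_bd hn hw' (s := s) (t := t + 2 * i) (by omega) (by omega) (by omega)
    refine ⟨by simp, pow_bd θ hn b1 b2⟩
  · refine h n 0 0 (n - t) s g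
      (fun i ω => norm2 (ω (Fin.ofNat (n + 1) t) - ω (Fin.ofNat (n + 1) (s + 2 * i))) ^ θ)
      (fun x => norm2 (x.2.2 0 - x.2.1 0) ^ θ) hn (by omega) (by omega) hg
      (fun hrg i hi w hw => ?_)
    have hw' : w ∈ Pool.Agent.H976R2.SW n := (Finset.mem_filter.mp hw).1
    simp only [parts]
    rw [piece_pth w (by omega), piece_pth w (by omega), pth_at w _ (by omega),
      pth_at w _ (by omega)]
    obtain ⟨b1, b2⟩ := norm_bd hn hw' (s := s + 2 * i) (t := t) (by omega) (by omega) (by omega)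
    refine ⟨?_, pow_bd θ hn b1 b2⟩
    simp only [Fin.val_zero, Nat.add_zero]
    rw [show n - (n - t) = t by omega]
  · refine h n 0 (t - s) 0 s g
      (fun i ω => norm2 (ω (Fin.ofNat (n + 1) (t + 2 * i)) -
        ω (Fin.ofNat (n + 1) (s + 2 * i))) ^ θ)
      (fun x => norm2 (x.2.1 (Fin.last (t - s)) - x.2.1 0) ^ θ) hn (by omega) (by omega) hg
      (fun hrg i hi w hw => ?_)
    have hw' : w ∈ Pool.Agent.H976R2.SW n := (Finset.mem_filter.mp hw).1
    simp only [parts]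
    rw [piece_pth w (by omega), piece_pth w (by omega), pth_at w _ (by omega),
      pth_at w _ (by omega)]
    obtain ⟨b1, b2⟩ := norm_bd hn hw' (s := s + 2 * i) (t := t + 2 * i) (by omega) (by omega)
      (by omega)
    refine ⟨?_, pow_bd θ hn b1 b2⟩
    simp only [Fin.val_zero, Nat.add_zero, Fin.val_last]
    rw [show s + 2 * i + (t - s) = t + 2 * i by omega]
  · refine h n 0 0 0 t g
      (fun i ω => (1 + ((ω (Fin.ofNat (n + 1) (t + 2 * i))).2 : ℝ)) ^ θ)
      (fun x => (1 + ((x.2.1 0).2 : ℝ)) ^ θ) hn (by omega) (by omega) hg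
      (fun hrg i hi w hw => ?_)
    obtain ⟨hw', hup⟩ := Finset.mem_filter.mp hw
    have hl : w.length = n := (Pool.Agent.H976R2.mem_SW.1 hw').1
    simp only [parts]
    rw [piece_pth w (by omega), pth_at w _ (by omega)]
    have c1 := hup ⟨t + 2 * i, by omega⟩
    rw [pth_fin] at c1
    simp only at c1
    have c2 := (abs_le.mp (Pool.Agent.N457.EX.PP_le w (t + 2 * i) (by omega)).2).2
    have c3 : ((Pool.Agent.H976R2.Lip.PP w (t + 2 * i)).2 : ℝ) ≤ ((t + 2 * i : ℕ) : ℤ) := by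
      exact_mod_cast c2
    have c4 : (0 : ℝ) ≤ ((Pool.Agent.H976R2.Lip.PP w (t + 2 * i)).2 : ℝ) := by exact_mod_cast c1
    have c5 : ((t + 2 * i : ℕ) : ℝ) ≤ n := by
      have : t + 2 * i ≤ n := by omega
      exact_mod_cast this
    refine ⟨by simp, pow_bd θ hn (by linarith) ?_⟩
    have c6 : 1 + ((Pool.Agent.H976R2.Lip.PP w (t + 2 * i)).2 : ℝ) ≤ 1 + n := by
      have : (((t + 2 * i : ℕ) : ℤ) : ℝ) = ((t + 2 * i : ℕ) : ℝ) := by norm_cast
      rw [this] at c3
      linarith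
    refine c6.trans ?_
    have c7 : (4 : ℝ) ≤ (n : ℝ) ^ 2 := by nlinarith
    have c8 : (n : ℝ) ^ 3 = n * (n : ℝ) ^ 2 := by ring
    rw [c8]
    nlinarith

end Pool.Agent.Results.MP_df1d0b_pr.HalfPlaneTimes
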